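import Pool.Agent.X258.LLV.Harm

/-!
# MP_70c392_co: a non-Liouville vertex-transitive graph with finite survival number

The strong product of the 3-regular tree with the two-way infinite path is non-Liouville (it carries
the bounded harmonic functions of the tree), and its survival number is at most `6`.

The tree is modelled with a fixed end: a vertex is a level `p` together with a finite set of
integers below `p`; its parent has level `p - 1` and forgets whether `p - 1` is in the set.
-/

namespace Pool.Agent.Results.MP_70c392_co.NonLiouvilleFinite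

open Finset Pool.Agent.X258.LLV

variable {V : Type*}

/-- The Voronoi cell `C(v,T)`. -/
def cell (G : SimpleGraph V) (T : Finset V) (v : V) : Set V :=
  {u | ∀ w ∈ T, G.dist u v ≤ G.dist u w}

open Classical in
/-- `I(T)`, the number of members of `T` with an infinite Voronoi cell. -/
noncomputable def infCount (G : SimpleGraph V) (T : Finset V) : ℕ :=
  (T.filter fun v => (cell G T v).Infinite).card

/-- `𝒯(d,n)`: the finite sets with at least `n` elements whose distinct elements are pairwise at
distance greater than `d`. -/
def Sep (G : SimpleGraph V) (d n : ℕ) : Set (Finset V) :=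
  {T | n ≤ T.card ∧ ∀ v ∈ T, ∀ w ∈ T, v ≠ w → d < G.dist v w}

/-- The survival number `s(G)`. -/
noncomputable def survival (G : SimpleGraph V) : ℕ∞ :=
  ⨆ n ∈ {n : ℕ | 1 ≤ n ∧ ∃ d : ℕ, ∀ T ∈ Sep G d n, n ≤ infCount G T}, (n : ℕ∞)

/-- `G` is an infinite, connected, locally finite, vertex-transitive graph. -/
def Admissible (G : SimpleGraph V) : Prop :=
  Infinite V ∧ G.Connected ∧ (∀ v, (G.neighborSet v).Finite) ∧ ∀ u v, ∃ φ : G ≃g G, φ u = v

/-- `h` is harmonic: its value at every vertex is its average over the neighbours. -/
def IsHarmonic (G : SimpleGraph V) (h : V → ℝ) : Prop :=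
  ∀ v, h v = (∑ᶠ w ∈ G.neighborSet v, h w) / ((G.neighborSet v).ncard : ℝ)

/-- `G` is non-Liouville: it has a bounded harmonic function that is not constant. -/
def NonLiouville (G : SimpleGraph V) : Prop :=
  ∃ h : V → ℝ, IsHarmonic G h ∧ (∃ C : ℝ, ∀ v, |h v| ≤ C) ∧ ∃ u v, h u ≠ h v

theorem infinite_vp : Infinite VP := by
  have : Function.Injective (fun q : ℤ => ((root, q) : VP)) := by
    intro a b h
    simpa using h
  exact Infinite.of_injective _ this

theorem admissible_strong : Admissible Strong := by
  have : Nonempty VP := ⟨(root, 0)⟩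
  refine ⟨infinite_vp, ⟨strong_metric.1⟩, strong_locallyFinite, transitive_of Strong fun c => ?_⟩
  obtain ⟨e, h1, _, h2⟩ := prod_auto c
  exact ⟨e, h1, h2⟩

theorem Q_inj (N : ℤ) (hN : 1 ≤ N) : Function.Injective (Q N) := by
  intro c c' h
  by_contra hne
  have := Q_sep N c c' hN hne
  rw [h] at this
  simp [DS, DT_self] at this
  omega

theorem survival_strong : survival Strong ≤ 6 := by
  classical
  refine iSup₂_le ?_
  rintro n ⟨_, d, hd⟩
  by_contra hcon
  have hn : 7 ≤ n := by
    by_contra h
    apply hcon
    have : n ≤ 6 := by omega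
    exact_mod_cast this
  set N : ℤ := (d : ℤ) + 1 with hN
  have hN1 : 1 ≤ N := by omega
  set T : Finset VP := (Finset.Icc (-3 : ℤ) ((n : ℤ) - 4)).image (Q N) with hT
  have hcard : T.card = n := by
    rw [hT, card_image_of_injective _ (Q_inj N hN1), Int.card_Icc]
    omega
  have hsep : T ∈ Sep Strong d n := by
    refine ⟨hcard.ge, ?_⟩
    intro v hv w hw hvw
    rw [hT, mem_image] at hv hw
    obtain ⟨c, _, rfl⟩ := hv
    obtain ⟨c', _, rfl⟩ := hw
    have hcc : c ≠ c' := fun h => hvw (by rw [h])
    have h1 := Q_sep N c c' hN1 hcc
    rw [← strong_metric.2] at h1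
    omega
  have hP : ∀ c ∈ Finset.Icc (-3 : ℤ) 3, Q N c ∈ T := by
    intro c hc
    rw [hT, mem_image]
    rw [mem_Icc] at hc
    exact ⟨c, by rw [mem_Icc]; omega, rfl⟩
  have hfin : (cell Strong T (Q N 0)).Finite := by
    apply (ball_finite (3 * N)).subset
    intro u hu
    apply blocked_strong N hN1 u
    intro c hc
    have := hu _ (hP c hc)
    rw [← strong_metric.2, ← strong_metric.2]
    exact_mod_cast this
  have h0 : Q N 0 ∈ T := hP 0 (by simp)
  have hle := hd T hsep
  have hlt : infCount Strong T < T.card := by
    unfold infCount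
    apply card_lt_card
    rw [filter_ssubset]
    exact ⟨Q N 0, h0, fun h => h hfin⟩
  omega

theorem nonLiouville_strong : NonLiouville Strong := by
  refine ⟨fun v => hT v.1, ?_, ⟨3, fun v => hT_bounded v.1⟩, (root, 0), (x1, 0), ?_⟩
  · intro v
    rw [SN_eq, finsum_mem_coe_finset, Set.ncard_coe_finset, SN_card, SN_sum]
    push_cast
    ring
  · show hT root ≠ hT x1
    rw [hT_root, hT_x1]
    norm_num

/-- The strong product of the 3-regular tree with the integer line is an infinite connected locally
finite vertex-transitive non-Liouville graph, and its survival number is at most `6`. So not every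
non-Liouville graph has infinite survival number. -/
theorem result :
    (Admissible Strong ∧ NonLiouville Strong ∧ survival Strong ≤ 6) ∧
    ¬ ∀ (W : Type) (G : SimpleGraph W), Admissible G → NonLiouville G → survival G = ⊤ := by
  refine ⟨⟨admissible_strong, nonLiouville_strong, survival_strong⟩, fun h => ?_⟩
  have h1 := h VP Strong admissible_strong nonLiouville_strong
  have h2 := survival_strong
  rw [h1] at h2
  exact absurd h2 (by decide)

end Pool.Agent.Results.MP_70c392_co.NonLiouvilleFinite
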